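import Pool.Agent.UC.Main

set_option autoImplicit false

namespace Pool.Agent.Results.MP_99e1f5_lc.DegreeFour

open MeasureTheory

variable {X : Type*} [MeasurableSpace X]

/-- The degree of `x` in `G`. -/
noncomputable def deg (G : SimpleGraph X) (x : X) : ℕ := (G.neighborSet x).ncard

/-- The number of neighbours of `x` whose colour differs from the colour of `x`. -/
noncomputable def opp (G : SimpleGraph X) (c : X → Bool) (x : X) : ℕ :=
  {y | G.Adj x y ∧ c y ≠ c x}.ncard

/-- `(G, μ)` is a measured graph with all degrees at most `Δ`: the edge set is Borel, every vertex
has at most `Δ` neighbours, and the set of all vertices connected to a null Borel set by a path of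
`G` is null (the measure is quasi-invariant for the connectedness relation). -/
structure IsMeasuredGraph (G : SimpleGraph X) (μ : Measure X) (Δ : ℕ) : Prop where
  borel : MeasurableSet {p : X × X | G.Adj p.1 p.2}
  bounded : ∀ x, (G.neighborSet x).encard ≤ Δ
  quasiInvariant : ∀ N : Set X, MeasurableSet N → μ N = 0 →
    μ {x | ∃ y ∈ N, G.Reachable x y} = 0

/-- Every measured graph of bounded degree (no assumption on the cocycle) has a measurable
2-colouring for which almost every vertex `x` of degree at most four is unfriendly (at least half
of its neighbours have the opposite colour), and almost every vertex of degree at least three has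
at least two neighbours of the opposite colour.  In particular every measured graph of maximum
degree at most four has a measurable unfriendly colouring. -/
theorem result {X : Type*} [MeasurableSpace X] [StandardBorelSpace X] (G : SimpleGraph X)
    (μ : Measure X) [IsProbabilityMeasure μ] (Δ : ℕ) (h : IsMeasuredGraph G μ Δ) :
    ∃ c : X → Bool, Measurable c ∧ ∀ᵐ x ∂μ,
      (deg G x ≤ 4 → deg G x ≤ 2 * opp G c x) ∧ (3 ≤ deg G x → 2 ≤ opp G c x) := by
  obtain ⟨c, hc, hx⟩ := UC.main G h.borel Δ
    (fun x => Set.encard_le_coe_iff_finite_ncard_le.1 (h.bounded x)) μ h.quasiInvariant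
  refine ⟨c, hc, hx.mono fun x hx => ?_⟩
  unfold deg opp
  constructor <;> intro h4 <;> omega

end Pool.Agent.Results.MP_99e1f5_lc.DegreeFour
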