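import Pool.Agent.UC2.FunGraph

set_option autoImplicit false

namespace Pool.Agent.Results.MP_99e1f5_lc.FunctionGraphs

open MeasureTheory

variable {X : Type*} [MeasurableSpace X]

/-- The degree of `x` in `G`. -/
noncomputable def deg (G : SimpleGraph X) (x : X) : ℕ := (G.neighborSet x).ncard

/-- The number of neighbours of `x` whose colour differs from the colour of `x`. -/
noncomputable def opp (G : SimpleGraph X) (c : X → Bool) (x : X) : ℕ :=
  {y | G.Adj x y ∧ c y ≠ c x}.ncard

/-- The number of neighbours of `x` in `S`. -/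
noncomputable def degIn (G : SimpleGraph X) (S : Set X) (x : X) : ℕ :=
  {y | G.Adj x y ∧ y ∈ S}.ncard

/-- `G` is a Borel graph with all degrees at most `Δ`. -/
structure IsBorelGraph (G : SimpleGraph X) (Δ : ℕ) : Prop where
  borel : MeasurableSet {p : X × X | G.Adj p.1 p.2}
  bounded : ∀ x, (G.neighborSet x).encard ≤ Δ

/-- Let `G` be a Borel graph of bounded degree, `C` a Borel set of vertices and `f` a Borel
function such that every edge of `G` either lies inside `C` or joins a vertex `x` outside `C` to
`f x`, and such that every vertex of `C` has at most two more neighbours in `C` than outside `C`.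
Then `G` has a Borel unfriendly colouring.  For `C = ∅` these are the graphs generated by one Borel
function. -/
theorem result {X : Type*} [MeasurableSpace X] [StandardBorelSpace X] (G : SimpleGraph X)
    (Δ : ℕ) (h : IsBorelGraph G Δ) (C : Set X) (hC : MeasurableSet C) (f : X → X)
    (hf : Measurable f)
    (hedge : ∀ x y, G.Adj x y → (x ∈ C ∧ y ∈ C) ∨ (x ∉ C ∧ y = f x) ∨ (y ∉ C ∧ x = f y))
    (hcore : ∀ x ∈ C, degIn G C x ≤ degIn G Cᶜ x + 2) :
    ∃ c : X → Bool, Measurable c ∧ ∀ x, deg G x ≤ 2 * opp G c x := by
  refine UC2.fun_main G h.borel Δ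
    (fun x => Set.encard_le_coe_iff_finite_ncard_le.1 (h.bounded x)) C hC f hf hcore ?_
  intro x y hxy hn
  rcases hedge x y hxy with h1 | h1 | h1
  · exact absurd h1 hn
  · exact Or.inl ⟨h1.1, h1.2.symm⟩
  · exact Or.inr ⟨h1.1, h1.2.symm⟩

end Pool.Agent.Results.MP_99e1f5_lc.FunctionGraphs
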