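import Pool.Agent.UC2.Hyp

set_option autoImplicit false

namespace Pool.Agent.Results.MP_99e1f5_lc.HyperfiniteAcyclic

open MeasureTheory

variable {X : Type*} [MeasurableSpace X]

/-- The degree of `x` in `G`. -/
noncomputable def deg (G : SimpleGraph X) (x : X) : ℕ := (G.neighborSet x).ncard

/-- The number of neighbours of `x` whose colour differs from the colour of `x`. -/
noncomputable def opp (G : SimpleGraph X) (c : X → Bool) (x : X) : ℕ :=
  {y | G.Adj x y ∧ c y ≠ c x}.ncard

/-- `(G, μ)` is a measured graph with all degrees at most `Δ`: the edge set is Borel, every vertex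
has at most `Δ` neighbours, and the set of all vertices connected to a null Borel set by a path of
`G` is null (the measure is quasi-invariant for the connectedness relation). -/
structure IsMeasuredGraph (G : SimpleGraph X) (μ : Measure X) (Δ : ℕ) : Prop where
  borel : MeasurableSet {p : X × X | G.Adj p.1 p.2}
  bounded : ∀ x, (G.neighborSet x).encard ≤ Δ
  quasiInvariant : ∀ N : Set X, MeasurableSet N → μ N = 0 →
    μ {x | ∃ y ∈ N, G.Reachable x y} = 0

/-- `(G, μ)` is hyperfinite: for almost every `x`, the connectedness relation of `G` is at `x` the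
increasing union of Borel equivalence relations `F 0, F 1, ...` with finite classes. -/
def IsHyperfinite (G : SimpleGraph X) (μ : Measure X) : Prop :=
  ∃ F : ℕ → Setoid X, (∀ n, MeasurableSet {p : X × X | F n p.1 p.2}) ∧
    (∀ n x, {y | F n x y}.Finite) ∧ (∀ n x y, F n x y → F (n + 1) x y) ∧
    ∀ᵐ x ∂μ, ∀ y, G.Reachable x y ↔ ∃ n, F n x y

/-- Every hyperfinite acyclic measured graph of bounded degree (no assumption on the cocycle) has
a measurable unfriendly colouring. -/
theorem result {X : Type*} [MeasurableSpace X] [StandardBorelSpace X] (G : SimpleGraph X)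
    (μ : Measure X) [IsProbabilityMeasure μ] (Δ : ℕ) (h : IsMeasuredGraph G μ Δ)
    (hac : G.IsAcyclic) (hyp : IsHyperfinite G μ) :
    ∃ c : X → Bool, Measurable c ∧ ∀ᵐ x ∂μ, deg G x ≤ 2 * opp G c x := by
  obtain ⟨F, hFm, hFf, hFmono, hF⟩ := hyp
  exact UC2.hyp_main G h.borel Δ
    (fun x => Set.encard_le_coe_iff_finite_ncard_le.1 (h.bounded x)) μ h.quasiInvariant hac F hFm
    hFf hFmono (hF.mono fun x hx y hy => (hx y).1 hy)

end Pool.Agent.Results.MP_99e1f5_lc.HyperfiniteAcyclic
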