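import Pool.Agent.UC2.LineGraph

set_option autoImplicit false

namespace Pool.Agent.Results.MP_99e1f5_lc.LineGraphs

open MeasureTheory

variable {X : Type*} [MeasurableSpace X]

/-- The degree of `x` in `G`. -/
noncomputable def deg (G : SimpleGraph X) (x : X) : ℕ := (G.neighborSet x).ncard

/-- The number of neighbours of `x` whose colour differs from the colour of `x`. -/
noncomputable def opp (G : SimpleGraph X) (c : X → Bool) (x : X) : ℕ :=
  {y | G.Adj x y ∧ c y ≠ c x}.ncard

/-- `G` is a Borel graph with all degrees at most `Δ`. -/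
structure IsBorelGraph (G : SimpleGraph X) (Δ : ℕ) : Prop where
  borel : MeasurableSet {p : X × X | G.Adj p.1 p.2}
  bounded : ∀ x, (G.neighborSet x).encard ≤ Δ

/-- Every Borel graph of bounded degree which is a line graph (that is, isomorphic to the line
graph of some simple graph `H`; neither `H` nor the isomorphism need be Borel) has a Borel
unfriendly colouring. -/
theorem result {X : Type*} [MeasurableSpace X] [StandardBorelSpace X] (G : SimpleGraph X)
    (Δ : ℕ) (h : IsBorelGraph G Δ) {V : Type*} (H : SimpleGraph V)
    (hG : Nonempty (G ≃g H.lineGraph)) :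
    ∃ c : X → Bool, Measurable c ∧ ∀ x, deg G x ≤ 2 * opp G c x := by
  obtain ⟨e⟩ := hG
  exact UC2.line_main G h.borel Δ
    (fun x => Set.encard_le_coe_iff_finite_ncard_le.1 (h.bounded x)) H e

end Pool.Agent.Results.MP_99e1f5_lc.LineGraphs
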